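import Pool.Agent.U310.TQ.Stm

/-!
# Project TQ, package PROD: the product formula (helper858)
-/

set_option autoImplicit false

open MeasureTheory ProbabilityTheory Filter

namespace Pool.Agent.U858.TQ

open Pool.Agent.U310.TQ

theorem triple {Ω : Type} [mΩ : MeasurableSpace Ω] (μ : Measure Ω) (A : ℕ → Set Ω)
    (hind : iIndepSet A μ) (a b c : ℕ) (hab : a < b) (hbc : b < c) :
    μ.real (A a ∩ A b ∩ A c) = μ.real (A a) * μ.real (A b) * μ.real (A c) := by
  have h := hind.meas_biInter {a, b, c}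
  rw [Finset.prod_insert (by simp only [Finset.mem_insert, Finset.mem_singleton]; omega),
    Finset.prod_insert (by simp only [Finset.mem_singleton]; omega),
    Finset.prod_singleton] at h
  have h2 : (⋂ i ∈ ({a, b, c} : Finset ℕ), A i) = A a ∩ A b ∩ A c := by
    ext ω
    simp [and_assoc]
  rw [h2] at h
  simp only [measureReal_def]
  rw [h, ENNReal.toReal_mul, ENNReal.toReal_mul, mul_assoc]

theorem t_PROD : S_PROD := by
  intro Ω mΩ μ _ A hA hind B τ ε hε hε1
  induction B using Finset.induction_on with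
  | empty =>
    intro _ _ _
    simp
  | insert q0 B' hq0 ih =>
    intro h1 h2 h3
    have m0 : q0 ∈ insert q0 B' := Finset.mem_insert_self _ _
    have ms : ∀ q ∈ B', q ∈ insert q0 B' := fun q hq => Finset.mem_insert_of_mem hq
    have ih' := ih (fun q hq q' hq' => h1 q (ms q hq) q' (ms q' hq'))
      (fun q hq q' hq' => h2 q (ms q hq) q' (ms q' hq')) (fun q hq => h3 q (ms q hq))
    set S' : Set ℕ := {n | ∃ q ∈ B', n = q ∨ n = τ q - 1 ∨ n = τ q + 1} with hS'
    set T' : Set ℕ := {n | n = q0 ∨ n = τ q0 - 1 ∨ n = τ q0 + 1} with hT'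
    have a4 := h1 q0 m0 q0 m0
    have hdisj : Disjoint S' T' := by
      rw [Set.disjoint_left]
      rintro n ⟨q, hq, hn⟩ hn'
      have hn'' : n = q0 ∨ n = τ q0 - 1 ∨ n = τ q0 + 1 := hn'
      have hne : q ≠ q0 := fun h => hq0 (h ▸ hq)
      have a1 := h1 q (ms q hq) q0 m0
      have a2 := h1 q0 m0 q (ms q hq)
      have a3 := h1 q (ms q hq) q (ms q hq)
      rcases lt_or_gt_of_ne hne with h | h
      · have := h2 q (ms q hq) q0 m0 h
        omega
      · have := h2 q0 m0 q (ms q hq) h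
        omega
    have hindep := hind.indep_generateFrom_of_disjoint hA S' T' hdisj
    have hAS : ∀ n ∈ S', MeasurableSet[MeasurableSpace.generateFrom {t | ∃ n ∈ S', A n = t}] (A n) :=
      fun n hn => MeasurableSpace.measurableSet_generateFrom ⟨n, hn, rfl⟩
    have hAT : ∀ n ∈ T', MeasurableSet[MeasurableSpace.generateFrom {t | ∃ n ∈ T', A n = t}] (A n) :=
      fun n hn => MeasurableSpace.measurableSet_generateFrom ⟨n, hn, rfl⟩
    have hG : MeasurableSet[MeasurableSpace.generateFrom {t | ∃ n ∈ S', A n = t}]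
        (⋂ q ∈ B', (A q ∩ A (τ q - 1) ∩ A (τ q + 1))ᶜ) := by
      refine @Finset.measurableSet_biInter _ _ (MeasurableSpace.generateFrom {t | ∃ n ∈ S', A n = t})
        _ B' (fun q hq => ?_)
      refine @MeasurableSet.compl _ _ (MeasurableSpace.generateFrom {t | ∃ n ∈ S', A n = t}) ?_
      refine @MeasurableSet.inter _ (MeasurableSpace.generateFrom {t | ∃ n ∈ S', A n = t}) _ _ ?_ ?_
      · refine @MeasurableSet.inter _ (MeasurableSpace.generateFrom {t | ∃ n ∈ S', A n = t}) _ _ ?_ ?_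
        · exact hAS q ⟨q, hq, Or.inl rfl⟩
        · exact hAS _ ⟨q, hq, Or.inr (Or.inl rfl)⟩
      · exact hAS _ ⟨q, hq, Or.inr (Or.inr rfl)⟩
    have hE : MeasurableSet[MeasurableSpace.generateFrom {t | ∃ n ∈ T', A n = t}]
        ((A q0 ∩ A (τ q0 - 1) ∩ A (τ q0 + 1))ᶜ) := by
      refine @MeasurableSet.compl _ _ (MeasurableSpace.generateFrom {t | ∃ n ∈ T', A n = t}) ?_
      refine @MeasurableSet.inter _ (MeasurableSpace.generateFrom {t | ∃ n ∈ T', A n = t}) _ _ ?_ ?_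
      · refine @MeasurableSet.inter _ (MeasurableSpace.generateFrom {t | ∃ n ∈ T', A n = t}) _ _ ?_ ?_
        · exact hAT _ (Or.inl rfl)
        · exact hAT _ (Or.inr (Or.inl rfl))
      · exact hAT _ (Or.inr (Or.inr rfl))
    have hprod := (Indep_iff _ _ μ).1 hindep _ _ hG hE
    have e1 : {ω | ∀ q ∈ insert q0 B', ¬ (ω ∈ A q ∧ ω ∈ A (τ q - 1) ∧ ω ∈ A (τ q + 1))} =
        (⋂ q ∈ B', (A q ∩ A (τ q - 1) ∩ A (τ q + 1))ᶜ) ∩
          (A q0 ∩ A (τ q0 - 1) ∩ A (τ q0 + 1))ᶜ := by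
      ext ω
      constructor
      · intro h
        refine ⟨?_, ?_⟩
        · rw [Set.mem_iInter₂]
          intro q hq hc
          exact h q (ms q hq) ⟨hc.1.1, hc.1.2, hc.2⟩
        · intro hc
          exact h q0 m0 ⟨hc.1.1, hc.1.2, hc.2⟩
      · rintro ⟨ha, hb⟩ q hq hc
        rcases Finset.mem_insert.1 hq with rfl | hq'
        · exact hb ⟨⟨hc.1, hc.2.1⟩, hc.2.2⟩
        · rw [Set.mem_iInter₂] at ha
          exact ha q hq' ⟨⟨hc.1, hc.2.1⟩, hc.2.2⟩
    have e2 : {ω | ∀ q ∈ B', ¬ (ω ∈ A q ∧ ω ∈ A (τ q - 1) ∧ ω ∈ A (τ q + 1))} =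
        ⋂ q ∈ B', (A q ∩ A (τ q - 1) ∩ A (τ q + 1))ᶜ := by
      ext ω
      constructor
      · intro h
        rw [Set.mem_iInter₂]
        intro q hq hc
        exact h q hq ⟨hc.1.1, hc.1.2, hc.2⟩
      · intro ha q hq hc
        rw [Set.mem_iInter₂] at ha
        exact ha q hq ⟨⟨hc.1, hc.2.1⟩, hc.2.2⟩
    rw [e2] at ih'
    rw [e1, measureReal_def, hprod, ENNReal.toReal_mul, ← measureReal_def, ← measureReal_def,
      Finset.card_insert_of_notMem hq0, pow_succ]
    have hEm : MeasurableSet (A q0 ∩ A (τ q0 - 1) ∩ A (τ q0 + 1)) :=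
      ((hA _).inter (hA _)).inter (hA _)
    have hle : μ.real (A q0 ∩ A (τ q0 - 1) ∩ A (τ q0 + 1))ᶜ ≤ 1 - ε ^ 3 := by
      rw [probReal_compl_eq_one_sub hEm, triple μ A hind _ _ _ (by omega) (by omega)]
      obtain ⟨c1, c2, c3⟩ := h3 q0 m0
      have : ε ^ 3 ≤ μ.real (A q0) * μ.real (A (τ q0 - 1)) * μ.real (A (τ q0 + 1)) := by
        calc ε ^ 3 = ε * ε * ε := by ring
          _ ≤ μ.real (A q0) * μ.real (A (τ q0 - 1)) * μ.real (A (τ q0 + 1)) := by
              gcongr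
      linarith
    have h0 : 0 ≤ 1 - ε ^ 3 := by
      have : ε ^ 3 ≤ 1 := pow_le_one₀ hε hε1
      linarith
    exact mul_le_mul ih' hle measureReal_nonneg (pow_nonneg h0 _)

end Pool.Agent.U858.TQ
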